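import Pool.Agent.H25FA.Final

set_option autoImplicit false

/-!
# The second dual of the Fourier algebra of an infinite locally compact group is never semisimple

Definitions used by the statement (files `Pool/Agent/H25FA/VN.lean`, `Pool/Agent/H25FA/Reg.lean`,
`Pool/Agent/H434R3/Arens.lean`):

* `lreg μ s`: the left translation operator `(λ(s) ξ)(x) = ξ(s⁻¹ x)` on `L²(G, μ)`;
* `coef U ξ η`: the function `s ↦ ⟨U(s) ξ, η⟩`;
* `IsFourierAlgebra μ ι` (that is `CoefAlg (lreg μ) ι`): by means of the injective homomorphism `ι`
  into the functions on `G`, the commutative normed algebra `A` is the algebra of all the functions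
  `s ↦ ⟨λ(s) ξ, η⟩`, `ξ, η ∈ L²(G)`, with pointwise operations and with the norm
  `‖u‖ = inf ‖ξ‖ ‖η‖` over all representations `u = ⟨λ(·) ξ, η⟩`; in short, `A` is the Fourier
  algebra `A(G)`;
* `Bidual A`: the second dual `A''` with the first Arens product;
* `InRad Φ`: `Φ` lies in the Jacobson radical (of the unitization; `A''` need not be unital).
-/

namespace Pool.Agent.Results.MP_129c4a_an.NeverSemisimple

universe u v

open MeasureTheory H434R3.Arens Pool.Agent.H25FA

/-- **Let `G` be an infinite locally compact (Hausdorff) group and `μ` a left Haar measure on `G`.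
Then the second dual of the Fourier algebra `A = A(G)` with the first Arens product is not
semisimple: there is `Φ ≠ 0` in the radical of `(A(G)'', □)`, and even with `Φ □ Ψ □ Φ = 0` for all
`Ψ ∈ A(G)''`.** -/
theorem result (G : Type u) [Group G] [TopologicalSpace G] [IsTopologicalGroup G]
    [LocallyCompactSpace G] [T2Space G] [MeasurableSpace G] [BorelSpace G] [Infinite G]
    (μ : Measure G) [μ.IsHaarMeasure] [μ.Regular]
    (A : Type v) [NonUnitalNormedCommRing A] [NormedSpace ℂ A] [IsScalarTower ℂ A A]
    [SMulCommClass ℂ A A] (ι : A → G → ℂ) (h : IsFourierAlgebra μ ι) :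
    ∃ Φ : Bidual A, Φ ≠ 0 ∧ InRad Φ ∧ ∀ Ψ : Bidual A, Φ * Ψ * Φ = 0 :=
  main μ h

end Pool.Agent.Results.MP_129c4a_an.NeverSemisimple
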